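import Pool.Agent.AT3.Stmts1
import Pool.Agent.Helper82_K9.TRB
import Pool.Agent.Helper53_K9.Tra
import Pool.Agent.Helper82_K9.WBO
import Pool.Agent.Helper25_K9.PRG
import Pool.Agent.Helper27_K9.PRT
import Pool.Agent.Helper77_KF.Trc
import Pool.Agent.Helper25_KF.Idm
import Pool.Agent.Helper94_PP.LemQ

/-!
# Squad AT3, row CO1: the norm of the vector `χ(u b^)`
-/

open scoped BigOperators

set_option linter.unusedSectionVars false

noncomputable section

namespace Pool.Agent.PP.T3.H83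

open Pool.Agent.Helper51_AWC Pool.Agent.Helper79_WRA Pool.Agent.PP Pool.Agent.PP.KF
open Pool.Agent.PP.K9 Pool.Agent.PP.K9.H97 Pool.Agent.PP.H75

attribute [local instance] Ideal.Quotient.field

section basics

variable {G : Type} [Group G] [Fintype G]

theorem eh_star (M : Ideal (integralClosure ℤ ℂ)) [M.IsMaximal] (e : G → FF M) (g : G) :
    starRingEnd ℂ (eh M e g) = eh M e g⁻¹ := by
  rw [K9.H25.eh_eq, K9.H25.eh_eq, map_mul, map_sum, map_inv₀, map_natCast]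
  congr 1
  refine Finset.sum_congr rfl fun χ hχ => ?_
  rw [Set.Finite.mem_toFinset] at hχ
  rw [map_mul, H94.irr_star hχ.1, H94.irr_star hχ.1, inv_one]

theorem chv_ext0 (C : Subgroup G) (a : C → ℂ) (z : G) (χ : G → ℂ) :
    chv (fun g => H75.ext0 C a (z⁻¹ * g)) χ = gbv C z a χ := by
  unfold chv gbv
  have e1 : ∑ᶠ g : G, H75.ext0 C a (z⁻¹ * g) * χ g =
      ∑ᶠ g : G, H75.ext0 C a g * χ (z * g) := by
    rw [← finsum_comp_equiv (Equiv.mulLeft z)]
    refine finsum_congr fun g => ?_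
    rw [Equiv.coe_mulLeft, inv_mul_cancel_left]
  rw [e1, sum_sub C _ (fun x hx => by rw [ext0_supp C a x hx, zero_mul])]
  refine finsum_congr fun t => ?_
  rw [ext0_apply]

/-- the conjugate of the value at `z b` -/
theorem gbv_star (M : Ideal (integralClosure ℤ ℂ)) [M.IsMaximal] (z : G)
    (b : Cu z → FF M) {χ : G → ℂ} (hχ : χ ∈ Irr G) :
    starRingEnd ℂ (gbv (Cu z) z (eh M b) χ) = gbv (Cu z) z⁻¹ (eh M b) χ := by
  classical
  have := Fintype.ofFinite (Cu z)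
  unfold gbv
  rw [finsum_eq_sum_of_fintype, finsum_eq_sum_of_fintype, map_sum]
  refine Fintype.sum_equiv (Equiv.inv (Cu z)) _ _ fun c => ?_
  rw [Equiv.inv_apply, map_mul, eh_star, H94.irr_star hχ]
  congr 2
  have h : (c : G) * z = z * c := Subgroup.mem_centralizer_singleton_iff.1 c.2
  rw [Subgroup.coe_inv, ← h, mul_inv_rev]

/-- the comparison of the `ℓ`-parts -/
theorem part_eq {ℓ N : ℕ} (hN : ∀ x y : G, Commute x y → Reg ℓ x → (∃ n : ℕ, y ^ ℓ ^ n = 1) →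
    (x * y) ^ N = x) {u u' s s' x : G} (hu : ∃ n : ℕ, u ^ ℓ ^ n = 1)
    (hu' : ∃ n : ℕ, u' ^ ℓ ^ n = 1) (hs : Reg ℓ s) (hs' : Reg ℓ s') (hsu : Commute s u)
    (hsu' : Commute s' u') (h : x⁻¹ * (s * u) * x = s' * u') : x⁻¹ * u * x = u' := by
  have e1 : (x⁻¹ * (s * u) * x) ^ N = x⁻¹ * s * x := by
    have e2 : (x⁻¹ * (s * u) * x) ^ N = x⁻¹ * (s * u) ^ N * x := by
      have e3 := conj_pow (i := N) (a := x⁻¹) (b := s * u)
      rwa [inv_inv] at e3
    rw [e2, hN s u hsu hs hu]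
  rw [h, hN s' u' hsu' hs' hu'] at e1
  have e4 : x⁻¹ * (s * u) * x = (x⁻¹ * s * x) * (x⁻¹ * u * x) := by group
  rw [h, ← e1] at e4
  exact (mul_left_cancel e4).symm

end basics

theorem co1 : Co1Stmt := by
  intro ℓ _ M _ hM G _ _ u hu b hb
  classical
  have := Fintype.ofFinite G
  have := Fintype.ofFinite (Cu u)
  obtain ⟨N, -, hN⟩ := H27.prt ℓ G
  obtain ⟨h1, h2, -⟩ := KF.H25.idm M (Cu u) (fun t : Cu u => b t) hb.idem
  have hbh : eh M (fun t : Cu u => b t) 1 = (Nat.card (Cu u) : ℂ)⁻¹ *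
      ∑ᶠ χ ∈ IrrE M (fun t : Cu u => b t), χ 1 ^ 2 := by
    rw [eh]
    simp only [inv_one, pow_two]
  have hsg : ∀ t : Cu u, ¬ Reg ℓ t → eh M (fun t : Cu u => b t) t = 0 := fun t ht =>
    K9.H25.eh_sing (H82W.wbo (H82.trb H53.tra)) ℓ M hM _ hb.idem t ht
  have hgv : ∀ χ ∈ Irr G, gv M (Cu u) u b χ * starRingEnd ℂ (gv M (Cu u) u b χ) =
      chv (fun g => H75.ext0 (Cu u) (eh M (fun t : Cu u => b t)) (u⁻¹ * g)) χ *
      chv (fun g => H75.ext0 (Cu u) (eh M (fun t : Cu u => b t)) (u * g)) χ := by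
    intro χ hχ
    have e1 := chv_ext0 (Cu u) (eh M (fun t : Cu u => b t)) u χ
    have e2 := chv_ext0 (Cu u) (eh M (fun t : Cu u => b t)) u⁻¹ χ
    rw [inv_inv] at e2
    rw [e1, e2, ← gbv_star M u _ hχ]
    rfl
  rw [finsum_mem_congr rfl hgv, trc]
  generalize eh M (fun t : Cu u => b t) = bh at h1 h2 hbh hsg ⊢
  set B : G → ℂ := H75.ext0 (Cu u) bh with hB
  have hBs : ∀ g, g ∉ Cu u → B g = 0 := ext0_supp _ _
  have hBa : ∀ t : Cu u, B t = bh t := ext0_apply _ _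
  have huC : u ∈ Cu u := Subgroup.mem_centralizer_singleton_iff.2 rfl
  have hcm : ∀ {c : G}, c ∈ Cu u → c * u = u * c := fun hc =>
    Subgroup.mem_centralizer_singleton_iff.1 hc
  have hBr : ∀ g, B g ≠ 0 → g ∈ Cu u ∧ Reg ℓ g := by
    intro g hg
    have hg' : g ∈ Cu u := by
      by_contra h
      exact hg (hBs g h)
    refine ⟨hg', ?_⟩
    by_contra h
    apply hg
    rw [hBa ⟨g, hg'⟩]
    apply hsg
    intro h'
    apply h
    unfold Reg at h' ⊢
    rwa [← Subgroup.orderOf_coe] at h'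
  have hBB : mulF B B = B := by
    rw [hB, ← ext0_mulF, h2.2]
  have hBc : ∀ c ∈ Cu u, ∀ x, B (c * x * c⁻¹) = B x := by
    intro c hc x
    by_cases hx : x ∈ Cu u
    · have := h2.1 ⟨x, hx⟩ ⟨c, hc⟩
      rw [← hBa, ← hBa] at this
      exact this
    · rw [hBs x hx, hBs]
      intro h
      apply hx
      have := (Cu u).mul_mem ((Cu u).mul_mem ((Cu u).inv_mem hc) h) hc
      have e : c⁻¹ * (c * x * c⁻¹) * c = x := by group
      rwa [e] at this
  rw [finsum_eq_sum_of_fintype]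
  simp only [finsum_eq_sum_of_fintype]
  rw [← Finset.sum_filter_add_sum_filter_not Finset.univ (fun g => g ∈ Cu u)]
  -- the complement of the centraliser
  have hc : ∑ x ∈ Finset.univ.filter (fun g => ¬ g ∈ Cu u),
      ∑ g, B (u⁻¹ * g) * B (u * (x⁻¹ * g⁻¹ * x)) = 0 := by
    refine Finset.sum_eq_zero fun x hx => Finset.sum_eq_zero fun g _ => ?_
    by_contra hne
    apply (Finset.mem_filter.1 hx).2
    obtain ⟨hs1, hs2⟩ := hBr _ (left_ne_zero_of_mul hne)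
    obtain ⟨hs1', hs2'⟩ := hBr _ (right_ne_zero_of_mul hne)
    have hui : ∃ n : ℕ, u⁻¹ ^ ℓ ^ n = 1 := by
      obtain ⟨n, hn⟩ := hu
      exact ⟨n, by rw [inv_pow, hn, inv_one]⟩
    have k1 : Commute (u⁻¹ * g)⁻¹ u⁻¹ := (show Commute (u⁻¹ * g) u from hcm hs1).inv_inv
    have k2 : Commute (u * (x⁻¹ * g⁻¹ * x)) u⁻¹ :=
      (show Commute (u * (x⁻¹ * g⁻¹ * x)) u from hcm hs1').inv_right
    have k3 : x⁻¹ * ((u⁻¹ * g)⁻¹ * u⁻¹) * x = (u * (x⁻¹ * g⁻¹ * x)) * u⁻¹ := by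
      rw [k2.eq]
      group
    have k4 := part_eq hN hui hui (show Reg ℓ (u⁻¹ * g)⁻¹ by
      unfold Reg
      rw [orderOf_inv]
      exact hs2) hs2' k1 k2 k3
    rw [Subgroup.mem_centralizer_singleton_iff]
    have k5 : u⁻¹ * x = x * u⁻¹ := by
      calc u⁻¹ * x = x * (x⁻¹ * u⁻¹ * x) := by group
        _ = x * u⁻¹ := by rw [k4]
    have k6 : Commute x u⁻¹ := k5.symm
    exact (Commute.inv_right_iff.1 k6).eq
  rw [hc, add_zero]
  -- the centraliser
  have hS : ∑ g, B (u⁻¹ * g) * B (u * g⁻¹) = bh 1 := by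
    have e1 : mulF B B 1 = bh 1 := by
      rw [hBB]
      exact hBa 1
    rw [← e1, mulF, finsum_eq_sum_of_fintype]
    refine Fintype.sum_equiv (Equiv.mulLeft u⁻¹) _ _ fun g => ?_
    rw [Equiv.coe_mulLeft]
    congr 1
    rw [← hBc u huC ((u⁻¹ * g)⁻¹ * 1)]
    congr 1
    group
  have hC : ∀ x ∈ Finset.univ.filter (fun g => g ∈ Cu u),
      ∑ g, B (u⁻¹ * g) * B (u * (x⁻¹ * g⁻¹ * x)) = bh 1 := by
    intro x hx
    have hx' : x ∈ Cu u := (Finset.mem_filter.1 hx).2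
    rw [← hS]
    refine Finset.sum_congr rfl fun g _ => ?_
    congr 1
    rw [← hBc x hx' (u * (x⁻¹ * g⁻¹ * x))]
    congr 1
    calc x * (u * (x⁻¹ * g⁻¹ * x)) * x⁻¹ = (x * u) * x⁻¹ * g⁻¹ := by group
      _ = u * g⁻¹ := by rw [hcm hx']; group
  rw [Finset.sum_congr rfl hC, Finset.sum_const, hbh, nsmul_eq_mul]
  have hcard : (Finset.univ.filter (fun g => g ∈ Cu u)).card = Nat.card (Cu u) := by
    rw [Nat.card_eq_fintype_card, Fintype.card_subtype]
  rw [hcard, ← mul_assoc, mul_inv_cancel₀, one_mul]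
  exact Nat.cast_ne_zero.2 Nat.card_pos.ne'

end Pool.Agent.PP.T3.H83
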